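import Pool.Agent.W819.EN.Stm

/-!
# Project EN, part LEGB: the Legendre transform
-/

set_option autoImplicit false

namespace Pool.Agent.W933.EN

open Pool.Agent.W819.EN Set Filter Topology

theorem dL_pos (h : LegA) (s : ℝ) : 0 < dL s := by
  have h1 : 0 ≤ dL (s - 1) := by
    refine le_of_tendsto h.bot ?_
    filter_upwards [eventually_le_atBot (s - 1)] with x hx
    exact h.mono.monotone hx
  exact h1.trans_lt (h.mono (by linarith))

theorem Lam_cont (h : LegA) : Continuous Lam :=
  continuous_iff_continuousAt.2 fun s => (h.der s).continuousAt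

theorem mvt (h : LegA) {s t : ℝ} (hst : s < t) :
    ∃ x, s < x ∧ x < t ∧ Lam t - Lam s = dL x * (t - s) := by
  obtain ⟨x, hx, hx2⟩ := exists_hasDerivAt_eq_slope Lam dL hst (Lam_cont h).continuousOn
    (fun x _ => h.der x)
  refine ⟨x, hx.1, hx.2, ?_⟩
  rw [hx2, div_mul_cancel₀]
  exact (sub_pos.2 hst).ne'

theorem conv (h : LegA) (s u : ℝ) : Lam s + dL s * (u - s) ≤ Lam u := by
  rcases lt_trichotomy s u with hsu | hsu | hsu
  · obtain ⟨x, hx1, hx2, hx⟩ := mvt h hsu
    have h1 := h.mono hx1
    nlinarith [sub_pos.2 hsu]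
  · subst hsu; simp
  · obtain ⟨x, hx1, hx2, hx⟩ := mvt h hsu
    have h1 := h.mono hx2
    nlinarith [sub_pos.2 hsu]

theorem gam_cont (h : LegA) : Continuous gam := by
  have h1 := Lam_cont h
  have h2 := h.cont
  unfold gam
  fun_prop

theorem gam_zero (h : LegA) : gam 0 = 0 := by
  simp [gam, h.zero]

/-- Part LEGB of project EN. -/
theorem t_LEGB (h : LegA) : LegB where
  rate := by
    intro s
    have h1 : ∀ u : ℝ, u * dL s - Lam u ≤ gam s := by
      intro u
      have := conv h s u
      unfold gam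
      linarith
    unfold Rate
    apply le_antisymm
    · exact ciSup_le h1
    · refine le_trans (le_of_eq rfl) (le_ciSup (f := fun u : ℝ => u * dL s - Lam u) ?_ s)
      refine ⟨gam s, ?_⟩
      rintro _ ⟨u, rfl⟩
      exact h1 u
  surj := by
    intro ν hν
    have h1 : ∃ a, dL a ≤ ν := by
      obtain ⟨a, ha⟩ := (h.bot.eventually (gt_mem_nhds hν)).exists
      exact ⟨a, ha.le⟩
    have h2 : ∃ b, ν ≤ dL b := (h.top.eventually_ge_atTop ν).exists
    exact mem_range_of_exists_le_of_exists_ge h.cont h1 h2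
  gcont := gam_cont h
  gneg := by
    intro s hs t ht hst
    obtain ⟨x, hx1, hx2, hx⟩ := mvt h hst
    have h1 := h.mono hx1
    have h2 := h.mono hx2
    have ht' : t ≤ 0 := ht
    have hs' : s < 0 := lt_of_lt_of_le hst ht'
    have h3 : gam s - gam t = s * (dL s - dL x) + t * (dL x - dL t) := by
      have : Lam t = Lam s + dL x * (t - s) := by linarith
      unfold gam
      rw [this]
      ring
    have h4 : 0 < s * (dL s - dL x) := mul_pos_of_neg_of_neg hs' (by linarith)
    have h5 : 0 ≤ t * (dL x - dL t) := mul_nonneg_of_nonpos_of_nonpos ht' (by linarith)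
    linarith
  gpos := by
    intro s hs t ht hst
    obtain ⟨x, hx1, hx2, hx⟩ := mvt h hst
    have h1 := h.mono hx1
    have h2 := h.mono hx2
    have hs' : 0 ≤ s := hs
    have ht' : 0 < t := lt_of_le_of_lt hs' hst
    have h3 : gam t - gam s = t * (dL t - dL x) + s * (dL x - dL s) := by
      have : Lam t = Lam s + dL x * (t - s) := by linarith
      unfold gam
      rw [this]
      ring
    have h4 : 0 < t * (dL t - dL x) := mul_pos ht' (by linarith)
    have h5 : 0 ≤ s * (dL x - dL s) := mul_nonneg hs' (by linarith)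
    linarith
  gzero := gam_zero h
  glow := by
    intro s hs
    have h1 := dL_pos h s
    have h2 := h.low s
    have h3 : s * dL s ≤ 0 := mul_nonpos_of_nonpos_of_nonneg hs h1.le
    unfold gam
    linarith
  gstar := by
    obtain ⟨s, hs1, hs2⟩ := ((h.top.eventually_ge_atTop (2 + Lam 1)).and
      (eventually_ge_atTop (1 : ℝ))).exists
    have h1 : 2 ≤ gam s := by
      have := conv h s 1
      unfold gam
      linarith
    have h0 : gam 0 ≤ 2 := by rw [gam_zero h]; norm_num
    have hs0 : (0 : ℝ) ≤ s := by linarith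
    obtain ⟨t, ht, ht2⟩ := intermediate_value_Icc hs0 (gam_cont h).continuousOn ⟨h0, h1⟩
    refine ⟨t, lt_of_le_of_ne ht.1 ?_, ht2⟩
    intro h3
    rw [← h3, gam_zero h] at ht2
    norm_num at ht2

end Pool.Agent.W933.EN
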